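import Pool.Agent.W188.MZ.Stm2
import Pool.Agent.W338.QS.Line

set_option autoImplicit false
set_option maxHeartbeats 2000000

/-!
# Project MZ, part OSC: change of the phase
-/

open Complex MeasureTheory Set Filter Topology

namespace Pool.Agent.W19.MZ

open Pool.Agent.W188.QS Pool.Agent.W188.GP Pool.Agent.W188.MZ

/-! ### powers -/

theorem pw_le (p x y B : ℝ) (hp : 0 < p) (hy : 0 ≤ y) (hyx : y ≤ x) (hx : x ≤ B)
    (N : ℕ) (hN : 1 ≤ N) (hh : x - y ≤ 7 / N * B) :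
    x ^ p - y ^ p ≤ 7 * (1 + p) * (N : ℝ) ^ (-(min 1 p)) * B ^ p := by
  have hN0 : (0 : ℝ) < N := by exact_mod_cast hN
  have hx0 : 0 ≤ x := hy.trans hyx
  have hB0 : 0 ≤ B := hx0.trans hx
  have hxy : 0 ≤ x - y := sub_nonneg.2 hyx
  rcases le_total p 1 with hp1 | hp1
  · rw [min_eq_right hp1]
    have h1 : x ^ p ≤ y ^ p + (x - y) ^ p := by
      have := Real.rpow_add_le_add_rpow hy hxy hp.le hp1
      rwa [add_sub_cancel] at this
    have h2 : (x - y) ^ p ≤ (7 / N * B) ^ p := Real.rpow_le_rpow hxy hh hp.le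
    have h3 : (7 / N * B) ^ p = 7 ^ p * (N : ℝ) ^ (-p) * B ^ p := by
      rw [Real.mul_rpow (by positivity) hB0, Real.div_rpow (by norm_num) hN0.le,
        Real.rpow_neg hN0.le]
      rfl
    have h4 : (7 : ℝ) ^ p ≤ 7 * (1 + p) := by
      calc (7 : ℝ) ^ p ≤ 7 ^ (1 : ℝ) := Real.rpow_le_rpow_of_exponent_le (by norm_num) hp1
        _ = 7 := Real.rpow_one 7
        _ ≤ 7 * (1 + p) := by linarith
    have h5 : 0 ≤ (N : ℝ) ^ (-p) * B ^ p := by positivity
    calc x ^ p - y ^ p ≤ (x - y) ^ p := by linarith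
      _ ≤ 7 ^ p * (N : ℝ) ^ (-p) * B ^ p := by rw [← h3]; exact h2
      _ = 7 ^ p * ((N : ℝ) ^ (-p) * B ^ p) := by ring
      _ ≤ 7 * (1 + p) * ((N : ℝ) ^ (-p) * B ^ p) := mul_le_mul_of_nonneg_right h4 h5
      _ = _ := by ring
  · rw [min_eq_left hp1]
    rcases hx0.eq_or_lt with h0 | h0
    · have hy0 : y = 0 := le_antisymm (hyx.trans h0.symm.le) hy
      rw [← h0, hy0, sub_self]
      positivity
    · have h1 := one_add_mul_self_le_rpow_one_add (s := y / x - 1) (by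
        have : 0 ≤ y / x := div_nonneg hy hx0
        linarith) hp1
      rw [add_sub_cancel, Real.div_rpow hy hx0] at h1
      have hxp : 0 < x ^ p := Real.rpow_pos_of_pos h0 p
      have h2 : x ^ p * (1 + p * (y / x - 1)) ≤ y ^ p := by
        have := mul_le_mul_of_nonneg_left h1 hxp.le
        rwa [mul_div_cancel₀ _ hxp.ne'] at this
      have h3 : x ^ p = x ^ (p - 1) * x := by
        rw [← Real.rpow_add_one h0.ne']
        congr 1
        ring
      have h4 : x ^ p - y ^ p ≤ p * x ^ (p - 1) * (x - y) := by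
        have e1 : x ^ p * (1 + p * (y / x - 1)) = x ^ p - p * x ^ (p - 1) * (x - y) := by
          rw [h3]
          field_simp
          ring
        linarith
      have h5 : x ^ (p - 1) ≤ B ^ (p - 1) := Real.rpow_le_rpow hx0 hx (by linarith)
      have hBpos : 0 < B := h0.trans_le hx
      have h6 : B ^ p = B ^ (p - 1) * B := by
        rw [← Real.rpow_add_one hBpos.ne']
        congr 1
        ring
      have h7 : (N : ℝ) ^ (-(1 : ℝ)) = 1 / N := by
        rw [Real.rpow_neg hN0.le, Real.rpow_one]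
        exact (one_div _).symm
      rw [h7]
      calc x ^ p - y ^ p ≤ p * x ^ (p - 1) * (x - y) := h4
        _ ≤ p * B ^ (p - 1) * (7 / N * B) := by
            refine mul_le_mul (mul_le_mul_of_nonneg_left h5 hp.le) hh hxy ?_
            positivity
        _ = 7 * p * (1 / N) * B ^ p := by
            rw [h6]
            ring
        _ ≤ 7 * (1 + p) * (1 / N) * B ^ p := by
            have : 0 ≤ 1 / (N : ℝ) * B ^ p := by positivity
            nlinarith

theorem pw (p x y B : ℝ) (hp : 0 < p) (hx0 : 0 ≤ x) (hy0 : 0 ≤ y) (hx : x ≤ B) (hy : y ≤ B)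
    (N : ℕ) (hN : 1 ≤ N) (hh : |x - y| ≤ 7 / N * B) :
    |x ^ p - y ^ p| ≤ 7 * (1 + p) * (N : ℝ) ^ (-(min 1 p)) * B ^ p := by
  rcases le_total y x with h | h
  · have h1 : 0 ≤ x ^ p - y ^ p := sub_nonneg.2 (Real.rpow_le_rpow hy0 h hp.le)
    rw [abs_of_nonneg h1]
    rw [abs_of_nonneg (sub_nonneg.2 h)] at hh
    exact pw_le p x y B hp hy0 h hx N hN hh
  · have h1 : 0 ≤ y ^ p - x ^ p := sub_nonneg.2 (Real.rpow_le_rpow hx0 h hp.le)
    rw [abs_sub_comm, abs_of_nonneg h1]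
    rw [abs_sub_comm, abs_of_nonneg (sub_nonneg.2 h)] at hh
    exact pw_le p y x B hp hx0 h hy N hN hh

theorem add_pow_le (p x y : ℝ) (hp : 0 < p) (hx : 0 ≤ x) (hy : 0 ≤ y) :
    (x + y) ^ p ≤ 2 ^ p * (x ^ p + y ^ p) := by
  have h1 : x + y ≤ 2 * max x y := by
    have := le_max_left x y
    have := le_max_right x y
    linarith
  have hm : 0 ≤ max x y := hx.trans (le_max_left _ _)
  calc (x + y) ^ p ≤ (2 * max x y) ^ p := Real.rpow_le_rpow (by positivity) h1 hp.le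
    _ = 2 ^ p * (max x y) ^ p := Real.mul_rpow (by norm_num) hm
    _ ≤ 2 ^ p * (x ^ p + y ^ p) := by
        refine mul_le_mul_of_nonneg_left ?_ (by positivity)
        rcases max_cases x y with h | h
        · rw [h.1]
          have : 0 ≤ y ^ p := by positivity
          linarith
        · rw [h.1]
          have : 0 ≤ x ^ p := by positivity
          linarith

/-! ### the phase -/

theorem lam_low (h6 : StTau) (T x : ℝ) (hT : 100 ≤ T) (hx : T ≤ x) :
    Real.log T - 3 ≤ lamE x := by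
  obtain ⟨hvm, hvc, hlc, hl1, hder, htv, hvt, htm, htc, hv100, hXX, hlam, hmem⟩ := h6
  have hx100 : 100 ≤ x := hT.trans hx
  rw [(hlam x hx100).1]
  have h1 := (Pool.Agent.W338.QS.qs_line.1 x (by linarith)).2.1
  have h2 := (abs_le.1 h1).1
  have h3 : Real.log (x / (2 * Real.pi)) = Real.log x - Real.log (2 * Real.pi) :=
    Real.log_div (by linarith) (by positivity)
  have h4 : Real.log (2 * Real.pi) ≤ 3 * Real.log 2 := by
    have h5 : (3 : ℝ) * Real.log 2 = Real.log (2 ^ (3 : ℕ)) := by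
      rw [Real.log_pow]
      norm_num
    rw [h5]
    refine Real.log_le_log (by positivity) ?_
    have := Real.pi_lt_d2
    norm_num
    linarith
  have h5 : Real.log T ≤ Real.log x := Real.log_le_log (by linarith) hx
  have h6 : 14 / x ≤ 0.14 := by
    rw [div_le_iff₀ (by linarith)]
    linarith
  have h7 := Real.log_two_lt_d9
  rw [h3] at h2
  linarith

theorem dt (h6 : StTau) (T γ γ' : ℝ) (N : ℕ) (n : ℤ) (hT : 100 ≤ T) (hL : 30 ≤ Real.log T)
    (hN : 1 ≤ N) (hγ : γ ≤ γ') (hγ' : γ' ≤ γ + 1 / N) (ht : T ≤ tau (n + γ)) :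
    0 ≤ tau (n + γ') - tau (n + γ) ∧ tau (n + γ') - tau (n + γ) ≤ 7 / (N * Real.log T) := by
  have hlow := fun x => lam_low h6 T x hT
  obtain ⟨hvm, hvc, hlc, hl1, hder, htv, hvt, htm, htc, hv100, hXX, hlam, hmem⟩ := h6
  have hN0 : (0 : ℝ) < N := by exact_mod_cast hN
  have h1 : tau (n + γ) ≤ tau (n + γ') := htm.monotone (by linarith)
  refine ⟨sub_nonneg.2 h1, ?_⟩
  have h2 := Convex.mul_sub_le_image_sub_of_le_deriv (convex_Ici T) (f := vv) hvc.continuousOn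
    (fun x _ => (hder x).differentiableAt.differentiableWithinAt)
    (C := (Real.log T - 3) / (2 * Real.pi)) (fun x hx => by
      rw [interior_Ici] at hx
      rw [(hder x).deriv]
      exact div_le_div_of_nonneg_right (hlow x (le_of_lt hx)) (by positivity))
    (tau (n + γ)) ht (tau (n + γ')) (ht.trans h1) h1
  rw [hvt, hvt] at h2
  have h3 : (n : ℝ) + γ' - (n + γ) ≤ 1 / N := by linarith
  obtain ⟨Δ, hΔ⟩ : ∃ Δ : ℝ, Δ = tau (n + γ') - tau (n + γ) := ⟨_, rfl⟩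
  rw [← hΔ] at h2 ⊢
  have hΔ0 : 0 ≤ Δ := by
    rw [hΔ]
    exact sub_nonneg.2 h1
  have h4 : (Real.log T - 3) * Δ ≤ 2 * Real.pi / N := by
    have h5 : (Real.log T - 3) / (2 * Real.pi) * Δ ≤ 1 / N := h2.trans h3
    have h6 := mul_le_mul_of_nonneg_left h5 (show 0 ≤ 2 * Real.pi by positivity)
    calc (Real.log T - 3) * Δ = 2 * Real.pi * ((Real.log T - 3) / (2 * Real.pi) * Δ) := by
          field_simp
      _ ≤ 2 * Real.pi * (1 / N) := h6
      _ = _ := by ring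
  have h5 : 2 * Real.pi / N ≤ 6.3 / N :=
    div_le_div_of_nonneg_right (by have := Real.pi_lt_d2; linarith) hN0.le
  have hL0 : 0 < Real.log T := by linarith
  rw [le_div_iff₀ (by positivity)]
  have h7 : 0.9 * Real.log T * Δ ≤ 6.3 / N := by
    have : 0.9 * Real.log T * Δ ≤ (Real.log T - 3) * Δ :=
      mul_le_mul_of_nonneg_right (by linarith) hΔ0
    linarith
  have h8 : 0.9 * Real.log T * Δ * N ≤ 6.3 := by
    have := mul_le_mul_of_nonneg_right h7 hN0.le
    rwa [div_mul_cancel₀ _ hN0.ne'] at this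
  nlinarith

theorem card_nd (h6 : StTau) (T γ a b : ℝ) (hT : 100 ≤ T) (hTa : T ≤ a) (hab : a ≤ b)
    (hb : b ≤ 8 * T) : ((nd γ a b).card : ℝ) ≤ (b - a + 1) * Real.log T := by
  obtain ⟨hvm, hvc, hlc, hl1, hder, htv, hvt, htm, htc, hv100, hXX, hlam, hmem⟩ := h6
  have hL1 : 1 ≤ Real.log T := by
    rw [Real.le_log_iff_exp_le (by linarith)]
    have := Real.exp_one_lt_d9
    linarith
  have h1 : vv b - vv a ≤ Real.log T * (b - a) := by
    refine Convex.image_sub_le_mul_sub_of_deriv_le (convex_Icc a b) (f := vv) hvc.continuousOn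
      (fun x _ => (hder x).differentiableAt.differentiableWithinAt) (fun x hx => ?_) a
      (left_mem_Icc.2 hab) b (right_mem_Icc.2 hab) hab
    rw [interior_Icc] at hx
    rw [(hder x).deriv]
    have h2 : lamE x ≤ Real.log x := (hlam x (by linarith [hx.1])).2
    have h3 : Real.log x ≤ Real.log (8 * T) := Real.log_le_log (by linarith [hx.1])
      (by linarith [hx.2])
    have h4 : Real.log (8 * T) ≤ 2 * Real.log T := by
      rw [Real.log_mul (by norm_num) (by linarith), two_mul]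
      have : Real.log 8 ≤ Real.log T := Real.log_le_log (by norm_num) (by linarith)
      linarith
    rw [div_le_iff₀ (by positivity)]
    have h5 := Real.pi_gt_three
    nlinarith
  have h2 : ((nd γ a b).card : ℝ) ≤ vv b - vv a + 1 := by
    unfold nd
    rw [Int.card_Ioc]
    have h3 : (⌊vv b - γ⌋ : ℝ) ≤ vv b - γ := Int.floor_le _
    have h4 : vv a - γ < (⌊vv a - γ⌋ : ℝ) + 1 := Int.lt_floor_add_one _
    have h5 : ((⌊vv b - γ⌋ - ⌊vv a - γ⌋).toNat : ℝ) ≤ max ((⌊vv b - γ⌋ : ℝ) - ⌊vv a - γ⌋) 0 := by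
      have h6 : (((⌊vv b - γ⌋ - ⌊vv a - γ⌋).toNat : ℤ) : ℝ) =
          ((max (⌊vv b - γ⌋ - ⌊vv a - γ⌋) 0 : ℤ) : ℝ) := by rw [Int.toNat_eq_max]
      have h7 : ((⌊vv b - γ⌋ - ⌊vv a - γ⌋).toNat : ℝ) =
          (((⌊vv b - γ⌋ - ⌊vv a - γ⌋).toNat : ℤ) : ℝ) := by push_cast; rfl
      rw [h7, h6]
      push_cast
      exact le_rfl
    refine h5.trans (max_le (by linarith) ?_)
    have : vv a ≤ vv b := hvm.monotone hab
    linarith
  have h3 : 0 ≤ b - a := sub_nonneg.2 hab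
  nlinarith

/-! ### sums -/

theorem sumWg (p γ γ'' T a b C : ℝ) (hC : ∀ x : ℝ,
      ∑ n ∈ nd γ a b, 1 / (1 + Real.log T * |tau (n + γ) - x|) ^ 2 ≤ C) :
    ∑ n ∈ nd γ a b, Wg p γ'' T a b (tau (n + γ)) ≤
      C * DD p γ'' (a - 2 * Real.log T) (b + 2 * Real.log T) := by
  unfold Wg DD
  rw [Finset.sum_comm, Finset.mul_sum]
  refine Finset.sum_le_sum fun k _ => ?_
  have h1 : ∑ n ∈ nd γ a b, ZZ (tau (k + γ'')) ^ p /
      (1 + Real.log T * |tau (k + γ'') - tau (n + γ)|) ^ 2 =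
      ZZ (tau (k + γ'')) ^ p * ∑ n ∈ nd γ a b,
        1 / (1 + Real.log T * |tau (n + γ) - tau (k + γ'')|) ^ 2 := by
    rw [Finset.mul_sum]
    refine Finset.sum_congr rfl fun n _ => ?_
    rw [abs_sub_comm, mul_one_div]
  rw [h1, mul_comm]
  exact mul_le_mul_of_nonneg_right (hC _) (Real.rpow_nonneg (norm_nonneg _) p)

theorem S2_nonneg (m : ℕ) (γ T t : ℝ) (hT : 1 ≤ T) : 0 ≤ S2 m γ T t := by
  have hL : 0 ≤ Real.log T := Real.log_nonneg hT
  unfold S2 Sg
  refine add_nonneg (Finset.sum_nonneg fun n _ => ?_) (Finset.sum_nonneg fun n _ => ?_)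
  · have : 0 ≤ ZZ (tau (n + γ)) := norm_nonneg _
    positivity
  · have : 0 ≤ ZZ (tau (n + (γ + 1 / 2))) := norm_nonneg _
    positivity

theorem mz_osc (h1 : StLocC) (h2 : StLip) (h3 : StPow) (h4 : StSpc) (h5 : StCmp)
    (h6 : StTau) : Pool.Agent.W188.MZ.StOscB := by
  intro p hp
  obtain ⟨m, hm2, hpm⟩ : ∃ m : ℕ, 2 ≤ m ∧ 2 ≤ p * m := by
    obtain ⟨k, hk⟩ := exists_nat_ge (2 / p)
    refine ⟨max 2 k, le_max_left _ _, ?_⟩
    rw [div_le_iff₀ hp] at hk
    have : (k : ℝ) ≤ (max 2 k : ℕ) := by exact_mod_cast le_max_right 2 k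
    nlinarith
  obtain ⟨C1, T1, hC1, H1⟩ := h1 m (by omega)
  obtain ⟨C2, T2, hC2, H2⟩ := h2 m (by omega)
  obtain ⟨C3, T3, hC3, H3⟩ := h3 p m hp hm2 hpm
  obtain ⟨C4, T4, hC4, H4⟩ := h4
  obtain ⟨C5, T5, hC5, H5⟩ := h5 p hp
  obtain ⟨Cm, hCm⟩ : ∃ Cm : ℝ, Cm = max C1 C2 := ⟨_, rfl⟩
  have hCm1 : C1 ≤ Cm := by
    rw [hCm]
    exact le_max_left _ _
  have hCm2 : C2 ≤ Cm := by
    rw [hCm]
    exact le_max_right _ _
  have hCm0 : 0 < Cm := hC1.trans_le hCm1
  have hev : ∀ᶠ T : ℝ in atTop, T1 ≤ T ∧ T2 ≤ T ∧ T3 ≤ T ∧ T4 ≤ T ∧ T5 ≤ T ∧ 200 ≤ T ∧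
      30 ≤ Real.log T ∧ 4 * Real.log T ≤ T ∧ 1 + 4 * Real.log T ≤ T ^ (p / 12) := by
    have e1 := (isLittleO_log_rpow_atTop (show 0 < p / 12 by positivity)).bound
      (show (0 : ℝ) < 1 / 8 by norm_num)
    have e2 := (tendsto_rpow_atTop (show 0 < p / 12 by positivity)).eventually_ge_atTop 2
    have e3 := Real.tendsto_log_atTop.eventually_ge_atTop 30
    have e4 := (Real.isLittleO_log_id_atTop).bound (show (0 : ℝ) < 1 / 4 by norm_num)
    filter_upwards [e1, e2, e3, e4, eventually_ge_atTop T1, eventually_ge_atTop T2,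
      eventually_ge_atTop T3, eventually_ge_atTop T4, eventually_ge_atTop T5,
      eventually_ge_atTop (200 : ℝ)] with T g1 g2 g3 g4 a1 a2 a3 a4 a5 a6
    refine ⟨a1, a2, a3, a4, a5, a6, g3, ?_, ?_⟩
    · simp only [id, Real.norm_eq_abs] at g4
      rw [abs_of_nonneg (by linarith), abs_of_nonneg (by linarith)] at g4
      linarith
    · simp only [Real.norm_eq_abs] at g1
      rw [abs_of_nonneg (by linarith), abs_of_nonneg (by linarith)] at g1
      linarith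
  obtain ⟨T₀, hT₀⟩ := eventually_atTop.1 hev
  obtain ⟨K1, hK1⟩ : ∃ K1 : ℝ, K1 = 2 ^ p * (Cm ^ p * C3 + 1) := ⟨_, rfl⟩
  obtain ⟨K2, hK2⟩ : ∃ K2 : ℝ, K2 = 7 * (1 + p) * K1 := ⟨_, rfl⟩
  have hK1pos : 0 < K1 := by
    rw [hK1]
    positivity
  have hK2pos : 0 < K2 := by
    rw [hK2]
    positivity
  refine ⟨K2 * (2 * C4 * C5 + 1), T₀, by positivity, ?_⟩
  intro T γ γ' a b N hT hTa hab hb hN hγ hγ'
  obtain ⟨a1, a2, a3, a4, a5, a6, a7, a8, a9⟩ := hT₀ T hT
  have hTpos : 0 < T := by linarith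
  have hN0 : (0 : ℝ) < N := by exact_mod_cast hN
  obtain ⟨L, hL⟩ : ∃ L : ℝ, L = Real.log T := ⟨_, rfl⟩
  rw [← hL] at a7 a8 a9
  have hL0 : 0 < L := by linarith
  obtain ⟨ν, hν⟩ : ∃ ν : ℝ, ν = (N : ℝ) ^ (-(min 1 p)) := ⟨_, rfl⟩
  have hν0 : 0 < ν := by
    rw [hν]
    exact Real.rpow_pos_of_pos hN0 _
  have hν1 : ν ≤ 1 := by
    rw [hν]
    refine Real.rpow_le_one_of_one_le_of_nonpos (by exact_mod_cast hN) ?_
    have : 0 < min 1 p := lt_min one_pos hp
    linarith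
  -- one term
  have hterm : ∀ n ∈ nd γ a b, |ZZ (tau (n + γ')) ^ p - ZZ (tau (n + γ)) ^ p| ≤
      K2 * ν * (W2 p γ T a b (tau (n + γ)) + T ^ (-(p / 2))) := by
    intro n hn
    obtain ⟨b1, b2⟩ := (h6.2.2.2.2.2.2.2.2.2.2.2.2 γ a b n).1 hn
    obtain ⟨d1, d2⟩ := dt h6 T γ γ' N n (by linarith) (by rw [← hL]; exact a7) hN hγ hγ'
      (by linarith)
    rw [← hL] at d2
    obtain ⟨t₀, ht₀⟩ : ∃ t₀ : ℝ, t₀ = tau (n + γ) := ⟨_, rfl⟩
    obtain ⟨t, ht⟩ : ∃ t : ℝ, t = tau (n + γ') := ⟨_, rfl⟩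
    rw [← ht₀] at b1 b2 d1 d2 ⊢
    rw [← ht] at d1 d2 ⊢
    obtain ⟨S, hS⟩ : ∃ S : ℝ, S = S2 m γ T t₀ := ⟨_, rfl⟩
    have hS0 : 0 ≤ S := by
      rw [hS]
      exact S2_nonneg m γ T t₀ (by linarith)
    obtain ⟨B, hB⟩ : ∃ B : ℝ, B = Cm * S + T ^ (-(1 / 2 : ℝ)) := ⟨_, rfl⟩
    have hdtL : t - t₀ ≤ 7 / L := by
      refine d2.trans (div_le_div_of_nonneg_left (by norm_num) hL0 ?_)
      have : (1 : ℝ) ≤ N := by exact_mod_cast hN
      nlinarith
    have hcp : ∀ x : ℝ, ‖cp x - cp t₀‖ = |x - t₀| := by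
      intro x
      have : cp x - cp t₀ = ((x - t₀ : ℝ) : ℂ) * I := by
        unfold cp
        push_cast
        ring
      rw [this, norm_mul, Complex.norm_I, mul_one, Complex.norm_real, Real.norm_eq_abs]
    have hCS1 : C1 * S + T ^ (-(1 / 2 : ℝ)) ≤ B := by
      rw [hB]
      have := mul_le_mul_of_nonneg_right hCm1 hS0
      linarith
    have hCS2 : C2 * S + T ^ (-(1 / 2 : ℝ)) ≤ B := by
      rw [hB]
      have := mul_le_mul_of_nonneg_right hCm2 hS0
      linarith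
    have z1 : ZZ t ≤ B := by
      have := H1 T γ t₀ a1 (by linarith) (by linarith) (cp t) (by
        rw [hcp, abs_of_nonneg d1, ← hL]
        refine hdtL.trans (div_le_div_of_nonneg_right (by norm_num) hL0.le))
      rw [← hS] at this
      exact this.trans hCS1
    have z2 : ZZ t₀ ≤ B := by
      have := H1 T γ t₀ a1 (by linarith) (by linarith) (cp t₀) (by
        rw [sub_self, norm_zero, ← hL]
        positivity)
      rw [← hS] at this
      exact this.trans hCS1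
    have hB0 : 0 ≤ B := (norm_nonneg _).trans z2
    have z3 : |ZZ t - ZZ t₀| ≤ 7 / N * B := by
      have g1 : |ZZ t - ZZ t₀| ≤ ‖riemannZeta (cp t) - riemannZeta (cp t₀)‖ :=
        abs_norm_sub_norm_le _ _
      have g2 := H2 T γ t₀ t a2 (by linarith) (by linarith) (by
        rw [abs_of_nonneg d1, ← hL]
        exact hdtL.trans (div_le_div_of_nonneg_right (by norm_num) hL0.le))
      rw [← hS, ← hL, abs_of_nonneg d1] at g2
      have g3 : L * (t - t₀) ≤ 7 / N := by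
        have := mul_le_mul_of_nonneg_left d2 hL0.le
        calc L * (t - t₀) ≤ L * (7 / (N * L)) := this
          _ = 7 / N := by field_simp
      calc |ZZ t - ZZ t₀| ≤ L * (t - t₀) * (C2 * S + T ^ (-(1 / 2 : ℝ))) := g1.trans g2
        _ ≤ 7 / N * B := mul_le_mul g3 hCS2 (by positivity) (by positivity)
    have hpw := pw p (ZZ t) (ZZ t₀) B hp (norm_nonneg _) (norm_nonneg _) z1 z2 N hN z3
    rw [← hν] at hpw
    have hBp : B ^ p ≤ K1 * (W2 p γ T a b t₀ + T ^ (-(p / 2))) := by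
      have g1 := add_pow_le p (Cm * S) (T ^ (-(1 / 2 : ℝ))) hp (by positivity) (by positivity)
      rw [← hB] at g1
      have g2 : (Cm * S) ^ p = Cm ^ p * S ^ p := Real.mul_rpow hCm0.le hS0
      have g3 : (T ^ (-(1 / 2 : ℝ))) ^ p = T ^ (-(p / 2)) := by
        rw [← Real.rpow_mul hTpos.le]
        congr 1
        ring
      have g4 : S ^ p ≤ C3 * W2 p γ T a b t₀ := by
        rw [hS]
        exact H3 T γ a b t₀ a3 (by linarith) (by linarith) b2 (by linarith)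
      have g5 : 0 ≤ W2 p γ T a b t₀ := by
        have : 0 ≤ C3 * W2 p γ T a b t₀ := (Real.rpow_nonneg hS0 p).trans g4
        exact nonneg_of_mul_nonneg_right this hC3
      have g6 : 0 ≤ T ^ (-(p / 2)) := by positivity
      rw [g2, g3] at g1
      refine g1.trans ?_
      rw [hK1, mul_assoc]
      refine mul_le_mul_of_nonneg_left ?_ (by positivity)
      have g7 : Cm ^ p * S ^ p ≤ Cm ^ p * (C3 * W2 p γ T a b t₀) :=
        mul_le_mul_of_nonneg_left g4 (by positivity)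
      have g8 : 0 ≤ Cm ^ p * C3 * T ^ (-(p / 2)) := by positivity
      have g9 : (Cm ^ p * C3 + 1) * (W2 p γ T a b t₀ + T ^ (-(p / 2))) =
          Cm ^ p * (C3 * W2 p γ T a b t₀) + Cm ^ p * C3 * T ^ (-(p / 2)) +
            W2 p γ T a b t₀ + T ^ (-(p / 2)) := by ring
      rw [g9]
      linarith
    calc |ZZ t ^ p - ZZ t₀ ^ p| ≤ 7 * (1 + p) * ν * B ^ p := hpw
      _ ≤ 7 * (1 + p) * ν * (K1 * (W2 p γ T a b t₀ + T ^ (-(p / 2)))) :=
          mul_le_mul_of_nonneg_left hBp (by positivity)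
      _ = K2 * ν * (W2 p γ T a b t₀ + T ^ (-(p / 2))) := by
          rw [hK2]
          ring
  -- the sum
  have hsum := Finset.sum_le_sum hterm
  rw [← Finset.mul_sum, Finset.sum_add_distrib, Finset.sum_const, nsmul_eq_mul] at hsum
  have hW : ∑ n ∈ nd γ a b, W2 p γ T a b (tau (n + γ)) ≤
      C4 * DD p γ (a - 2 * L) (b + 2 * L) + C4 * DD p (γ + 1 / 2) (a - 2 * L) (b + 2 * L) := by
    unfold W2
    rw [Finset.sum_add_distrib, hL]
    have hC : ∀ x : ℝ, ∑ n ∈ nd γ a b, 1 / (1 + Real.log T * |tau (n + γ) - x|) ^ 2 ≤ C4 :=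
      fun x => H4 T γ a b x a4 (by linarith) (by linarith)
    exact add_le_add (sumWg p γ γ T a b C4 hC) (sumWg p γ (γ + 1 / 2) T a b C4 hC)
  obtain ⟨J, hJ⟩ : ∃ J : ℝ, J = ∫ t in (a - 4 * L)..(b + 4 * L), ZZ t ^ p := ⟨_, rfl⟩
  have hJ0 : 0 ≤ J := by
    rw [hJ]
    exact intervalIntegral.integral_nonneg (by linarith) fun t _ =>
      Real.rpow_nonneg (norm_nonneg _) p
  have hDD : ∀ γ'' : ℝ, DD p γ'' (a - 2 * L) (b + 2 * L) ≤
      C5 * (L * J + (b - a + 1 + 4 * L) * T ^ (-(p / 3))) := by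
    intro γ''
    have g1 := (H5 T γ'' (a - 2 * L) (b + 2 * L) a5 (by linarith) (by linarith)
      (by linarith)).2
    rw [← hL] at g1
    have e1 : a - 2 * L - 2 * L = a - 4 * L := by ring
    have e2 : b + 2 * L + 2 * L = b + 4 * L := by ring
    have e3 : b + 2 * L - (a - 2 * L) + 1 = b - a + 1 + 4 * L := by ring
    rw [e1, e2, e3, ← hJ] at g1
    exact g1
  have hcard := card_nd h6 T γ a b (by linarith) hTa hab hb
  rw [← hL] at hcard
  rw [← hν, ← hL, ← hJ]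
  obtain ⟨X, hX⟩ : ∃ X : ℝ, X = (b - a + 1) * T ^ (-(p / 4)) := ⟨_, rfl⟩
  have hba : 1 ≤ b - a + 1 := by linarith
  have hq12 : T ^ (p / 12) * T ^ (-(p / 3)) = T ^ (-(p / 4)) := by
    rw [← Real.rpow_add hTpos]
    congr 1
    ring
  have hE1 : (b - a + 1 + 4 * L) * T ^ (-(p / 3)) ≤ X := by
    have g1 : b - a + 1 + 4 * L ≤ (b - a + 1) * T ^ (p / 12) := by
      calc b - a + 1 + 4 * L ≤ (b - a + 1) * (1 + 4 * L) := by nlinarith
        _ ≤ _ := mul_le_mul_of_nonneg_left a9 (by linarith)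
    calc (b - a + 1 + 4 * L) * T ^ (-(p / 3)) ≤ (b - a + 1) * T ^ (p / 12) * T ^ (-(p / 3)) :=
          mul_le_mul_of_nonneg_right g1 (by positivity)
      _ = X := by rw [mul_assoc, hq12, hX]
  have hE2 : (nd γ a b).card * T ^ (-(p / 2)) ≤ X := by
    have g1 : L ≤ T ^ (p / 12) := by linarith
    have g2 : L * T ^ (-(p / 2)) ≤ T ^ (-(p / 4)) := by
      calc L * T ^ (-(p / 2)) ≤ T ^ (p / 12) * T ^ (-(p / 2)) :=
            mul_le_mul_of_nonneg_right g1 (by positivity)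
        _ = T ^ (p / 12 + -(p / 2)) := (Real.rpow_add hTpos _ _).symm
        _ ≤ T ^ (-(p / 4)) := Real.rpow_le_rpow_of_exponent_le (by linarith) (by linarith)
    calc ((nd γ a b).card : ℝ) * T ^ (-(p / 2)) ≤ (b - a + 1) * L * T ^ (-(p / 2)) :=
          mul_le_mul_of_nonneg_right hcard (by positivity)
      _ = (b - a + 1) * (L * T ^ (-(p / 2))) := by ring
      _ ≤ X := by
          rw [hX]
          exact mul_le_mul_of_nonneg_left g2 (by linarith)
  have hX0 : 0 ≤ X := by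
    rw [hX]
    positivity
  rw [← hX]
  have hDDX : ∀ γ'' : ℝ, DD p γ'' (a - 2 * L) (b + 2 * L) ≤ C5 * (L * J + X) := fun γ'' =>
    (hDD γ'').trans (mul_le_mul_of_nonneg_left (by linarith) hC5.le)
  have hLJ : 0 ≤ L * J := by positivity
  have hin : ∑ n ∈ nd γ a b, W2 p γ T a b (tau (n + γ)) + (nd γ a b).card * T ^ (-(p / 2)) ≤
      (2 * C4 * C5 + 1) * (L * J + X) := by
    have g1 := mul_le_mul_of_nonneg_left (hDDX γ) hC4.le
    have g2 := mul_le_mul_of_nonneg_left (hDDX (γ + 1 / 2)) hC4.le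
    have g3 : (2 * C4 * C5 + 1) * (L * J + X) = C4 * (C5 * (L * J + X)) +
        C4 * (C5 * (L * J + X)) + L * J + X := by ring
    rw [g3]
    linarith
  calc ∑ n ∈ nd γ a b, |ZZ (tau (n + γ')) ^ p - ZZ (tau (n + γ)) ^ p| ≤
        K2 * ν * (∑ n ∈ nd γ a b, W2 p γ T a b (tau (n + γ)) +
          (nd γ a b).card * T ^ (-(p / 2))) := hsum
    _ ≤ K2 * ν * ((2 * C4 * C5 + 1) * (L * J + X)) :=
        mul_le_mul_of_nonneg_left hin (by positivity)
    _ = K2 * (2 * C4 * C5 + 1) * (ν * (L * J) + ν * X) := by ring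
    _ ≤ K2 * (2 * C4 * C5 + 1) * (ν * (L * J) + X) := by
        refine mul_le_mul_of_nonneg_left ?_ (by positivity)
        have : ν * X ≤ 1 * X := mul_le_mul_of_nonneg_right hν1 hX0
        linarith

end Pool.Agent.W19.MZ
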